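import Mathlib

namespace Pool.Agent.Results.MP_b9e9b1_co.Seven

/-- Hamming diameter of a finite set of points of the cube -/
def diam {n : ℕ} (A : Finset (Fin n → Bool)) : ℕ :=
  A.sup fun x => A.sup fun y => hammingDist x y

def pt (m : ℕ) : Fin 7 → Bool := fun i => m.testBit i

def L : List ℕ := [0, 2, 4, 6, 14, 17, 18, 20, 21, 22, 23, 26, 28, 31, 34, 36, 38, 39, 44, 47, 48,
  50, 52, 55, 56, 65, 66, 68, 86, 94, 114, 116, 118]

def hd (a b : ℕ) : ℕ :=
  ((List.range 7).filter fun i => a.testBit i != b.testBit i).length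

lemma hd_eq (a b : ℕ) : hammingDist (pt a) (pt b) = hd a b := by
  simp only [hammingDist, hd, pt, Finset.card_filter, Fin.sum_univ_succ, List.range_succ,
    List.range_zero]
  simp only [List.nil_append, List.cons_append, List.filter_cons, List.filter_nil]
  simp
  split_ifs <;> simp_all

lemma surj (x : Fin 7 → Bool) : ∃ m < 128, pt m = x := by
  have : ∀ a b c d e f g : Bool, ∃ m < 128, pt m = ![a, b, c, d, e, f, g] := by
    intro a b c d e f g
    refine ⟨a.toNat + 2 * b.toNat + 4 * c.toNat + 8 * d.toNat + 16 * e.toNat + 32 * f.toNat +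
      64 * g.toNat, ?_⟩
    revert a b c d e f g
    decide +kernel
  obtain ⟨m, hm, e⟩ := this (x 0) (x 1) (x 2) (x 3) (x 4) (x 5) (x 6)
  refine ⟨m, hm, e.trans ?_⟩
  funext i
  fin_cases i <;> rfl

lemma h1 : ∀ a ∈ L, ∀ b ∈ L, hd a b ≤ 5 := by decide +kernel
lemma h2 : ∀ a ∈ L, ∃ b ∈ L, hd b a = 5 := by decide +kernel
lemma h3 : ∀ m < 128, m ∈ L ∨ ∃ b ∈ L, 5 < hd m b := by decide +kernel
lemma h4 : ∀ a ∈ L, ∀ b ∈ L, hd a b = 0 → a = b := by decide +kernel

theorem result : ∃ (n r : ℕ) (A : Finset (Fin n → Bool)), r ≤ n ∧ diam A = r ∧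
    (∀ x, x ∉ A → r < diam (insert x A)) ∧
    (∀ a ∈ A, (A.sup fun x => hammingDist x a) = diam A) ∧ 2 ^ r < A.card := by
  let A : Finset (Fin 7 → Bool) := L.toFinset.image pt
  have mem : ∀ x, x ∈ A ↔ ∃ m ∈ L, pt m = x := by intro x; simp [A]
  have hr : ∀ a ∈ A, (A.sup fun x => hammingDist x a) = 5 := by
    intro a ha
    obtain ⟨m, hm, rfl⟩ := (mem a).mp ha
    apply le_antisymm
    · refine Finset.sup_le fun x hx => ?_
      obtain ⟨k, hk, rfl⟩ := (mem x).mp hx
      rw [hd_eq]; exact h1 k hk m hm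
    · obtain ⟨b, hb, e⟩ := h2 m hm
      rw [← e, ← hd_eq]
      exact Finset.le_sup (f := fun x => hammingDist x (pt m)) ((mem _).mpr ⟨b, hb, rfl⟩)
  have hd5 : diam A = 5 := by
    apply le_antisymm
    · refine Finset.sup_le fun x hx => ?_
      simp only [hammingDist_comm x]
      exact (hr x hx).le
    · have h0 : pt 0 ∈ A := (mem _).mpr ⟨0, by decide, rfl⟩
      refine le_trans ?_ (Finset.le_sup (f := fun x => A.sup fun y => hammingDist x y) h0)
      simp only [hammingDist_comm (pt 0)]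
      exact (hr _ h0).ge
  refine ⟨7, 5, A, by norm_num, hd5, ?_, fun a ha => by rw [hr a ha, hd5], ?_⟩
  · intro x hx
    obtain ⟨m, hm, rfl⟩ := surj x
    obtain ⟨b, hb, e⟩ := (h3 m hm).resolve_left fun h => hx ((mem _).mpr ⟨m, h, rfl⟩)
    rw [← hd_eq] at e
    refine lt_of_lt_of_le e (le_trans ?_ (Finset.le_sup
      (f := fun x => (insert (pt m) A).sup fun y => hammingDist x y) (Finset.mem_insert_self _ _)))
    exact Finset.le_sup (f := fun y => hammingDist (pt m) y)
      (Finset.mem_insert_of_mem ((mem _).mpr ⟨b, hb, rfl⟩))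
  · rw [Finset.card_image_of_injOn fun m hm k hk e =>
      h4 m (List.mem_toFinset.mp hm) k (List.mem_toFinset.mp hk) (by rw [← hd_eq, e]; simp)]
    decide +kernel

end Pool.Agent.Results.MP_b9e9b1_co.Seven
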